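import Pool.Agent.H14.AVR.Stmts

/-!
# Board `avr`, module BAS: base change between two pairs of Gram matrices
-/

set_option autoImplicit false

namespace Pool.AVR

open Polynomial Matrix

theorem bas_cub_eq {K : Type} [Field K] (a b c : K) :
    cub a b c = Cubic.toPoly ⟨1, a, b, c⟩ := by
  simp [cub, Cubic.toPoly]

theorem bas_monic {K : Type} [Field K] (a b c : K) : (cub a b c).Monic := by
  rw [bas_cub_eq]
  exact Cubic.monic_of_a_eq_one rfl

theorem bas_natDegree {K : Type} [Field K] (a b c : K) : (cub a b c).natDegree = 3 := by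
  rw [bas_cub_eq]
  exact Cubic.natDegree_of_a_ne_zero one_ne_zero

/-- `tau` as a linear map -/
noncomputable def basT {K : Type} [Field K] (a b c : K) : K[X] →ₗ[K] K :=
  (lcoeff K 2).comp (modByMonicHom (cub a b c))

theorem basT_apply {K : Type} [Field K] (a b c : K) (p : K[X]) :
    basT a b c p = tau a b c p := rfl

theorem bas_tau_congr {K : Type} [Field K] (a b c : K) (p q : K[X])
    (h : cub a b c ∣ p - q) : tau a b c p = tau a b c q := by
  have h1 : (p - q) %ₘ cub a b c = 0 := (modByMonic_eq_zero_iff_dvd (bas_monic a b c)).2 h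
  have h2 : basT a b c (p - q) = 0 := by
    rw [basT_apply, tau, h1, coeff_zero]
  rw [map_sub, basT_apply, basT_apply] at h2
  exact sub_eq_zero.1 h2

theorem bas_bilin {K : Type} [Field K] (T : K[X] →ₗ[K] K) (r : K[X]) (e' : Fin 3 → K[X])
    (M : Matrix (Fin 3) (Fin 3) K) (hM : ∀ i j, T (r * (e' i * e' j)) = M i j)
    (g : Matrix (Fin 3) (Fin 3) K) (i j : Fin 3) :
    T (r * ((∑ k, g k i • e' k) * (∑ l, g l j • e' l))) = (gᵀ * M * g) i j := by
  rw [Finset.sum_mul_sum, Finset.mul_sum, map_sum, Matrix.mul_apply]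
  simp only [Matrix.mul_apply, Matrix.transpose_apply, Finset.sum_mul]
  rw [Finset.sum_comm]
  refine Finset.sum_congr rfl fun k _ => ?_
  rw [Finset.mul_sum, map_sum]
  refine Finset.sum_congr rfl fun l _ => ?_
  rw [smul_mul_smul_comm, mul_smul_comm, map_smul, hM, smul_eq_mul]
  ring

theorem bas_thm : BASStmt := by
  intro K _ a b c x y hxy hy G B G' B' hG hG' hdet
  obtain ⟨e, he1, he2⟩ := hG
  obtain ⟨e', he1', he2'⟩ := hG'
  have hmon := bas_monic a b c
  have hT : ∀ p q : K[X], AdjoinRoot.mk (cub a b c) p = AdjoinRoot.mk (cub a b c) q →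
      ∀ r : K[X], basT a b c (r * p) = basT a b c (r * q) := by
    intro p q hpq r
    rw [basT_apply, basT_apply]
    apply bas_tau_congr
    rw [← mul_sub]
    exact Dvd.dvd.mul_left (AdjoinRoot.mk_eq_mk.1 hpq) r
  -- the family `e'` is linearly independent modulo the cubic
  have hli : LinearIndependent K (fun i => AdjoinRoot.mk (cub a b c) (e' i)) := by
    rw [Fintype.linearIndependent_iff]
    intro w hw
    have hw' : AdjoinRoot.mk (cub a b c) (∑ i, w i • e' i) = AdjoinRoot.mk (cub a b c) 0 := by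
      rw [map_zero, map_sum, ← hw]
      refine Finset.sum_congr rfl fun i _ => ?_
      rw [AdjoinRoot.smul_mk]
    have hv : w ᵥ* G' = 0 := by
      funext j
      have h1 := hT _ _ hw' (hh a b x y * e' j)
      rw [mul_zero, map_zero, Finset.mul_sum, map_sum] at h1
      rw [Matrix.vecMul, dotProduct, Pi.zero_apply, ← h1]
      refine Finset.sum_congr rfl fun i _ => ?_
      rw [mul_smul_comm, map_smul, smul_eq_mul, basT_apply, ← he1' i j]
      congr 2
      ring
    have hz := Matrix.eq_zero_of_vecMul_eq_zero hdet hv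
    intro i
    exact congrFun hz i
  have hfin : Module.finrank K (AdjoinRoot (cub a b c)) = 3 := by
    rw [(AdjoinRoot.powerBasis' hmon).finrank, AdjoinRoot.powerBasis'_dim, bas_natDegree]
  have : Module.Finite K (AdjoinRoot (cub a b c)) := (AdjoinRoot.powerBasis' hmon).finite
  have hspan := hli.span_eq_top_of_card_eq_finrank' (by rw [hfin, Fintype.card_fin])
  have hex : ∀ j : Fin 3, ∃ g : Fin 3 → K,
      ∑ i, g i • AdjoinRoot.mk (cub a b c) (e' i) = AdjoinRoot.mk (cub a b c) (e j) := by
    intro j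
    have hmem : AdjoinRoot.mk (cub a b c) (e j) ∈
        Submodule.span K (Set.range fun i => AdjoinRoot.mk (cub a b c) (e' i)) := by
      rw [hspan]
      trivial
    exact (Submodule.mem_span_range_iff_exists_fun K).1 hmem
  choose g hg using hex
  let g' : Matrix (Fin 3) (Fin 3) K := Matrix.of fun i j => g j i
  have hmk : ∀ j, AdjoinRoot.mk (cub a b c) (e j) =
      AdjoinRoot.mk (cub a b c) (∑ i, g' i j • e' i) := by
    intro j
    rw [← hg j, map_sum]
    refine Finset.sum_congr rfl fun i _ => ?_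
    rw [AdjoinRoot.smul_mk]
    rfl
  have hprod : ∀ i j, AdjoinRoot.mk (cub a b c) (e i * e j) =
      AdjoinRoot.mk (cub a b c) ((∑ k, g' k i • e' k) * (∑ l, g' l j • e' l)) := by
    intro i j
    rw [map_mul, map_mul, hmk i, hmk j]
  refine ⟨g', ?_, ?_⟩
  · ext i j
    rw [← bas_bilin (basT a b c) (hh a b x y) e' G' (fun i j => by
      rw [basT_apply, ← he1' i j]; congr 1; ring) g' i j, ← hT _ _ (hprod i j), basT_apply,
      ← he1 i j]
    congr 1
    ring
  · ext i j
    rw [← bas_bilin (basT a b c) (X * hh a b x y) e' B' (fun i j => by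
      rw [basT_apply, ← he2' i j]; congr 1; ring) g' i j, ← hT _ _ (hprod i j), basT_apply,
      ← he2 i j]
    congr 1
    ring

end Pool.AVR
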