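import Pool.Agent.H14.AVR.Stmts

/-!
# Board `avr`, module HOM: the descent map separates the classes modulo `2 E(K)`
-/

set_option autoImplicit false

namespace Pool.AVR

open Polynomial

theorem hom_hh {K : Type} [Field K] (a b c x y : K) (hxy : OnC a b c x y) (hy : y ≠ 0) :
    (C x - X) * hh a b x y = 1 - C ((y ^ 2)⁻¹) * cub a b c := by
  have h1 : C (y ^ 2) = (C x ^ 3 + C a * C x ^ 2 + C b * C x + C c : K[X]) := by
    rw [hxy]
    simp only [map_add, map_mul, map_pow]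
  have h2 : (C ((y ^ 2)⁻¹) * C (y ^ 2) : K[X]) = 1 := by
    rw [← C_mul, inv_mul_cancel₀ (pow_ne_zero 2 hy), C_1]
  unfold hh cub
  simp only [map_add, map_mul, map_pow] at *
  linear_combination h2 - C ((y ^ 2)⁻¹) * h1

theorem hom_line {K : Type} [Field K] (a b c x₁ y₁ x₂ y₂ l : K) (h1 : OnC a b c x₁ y₁)
    (h2 : OnC a b c x₂ y₂) (hx : x₁ ≠ x₂) (hl : l * (x₁ - x₂) = y₁ + y₂) :
    cub a b c - (C l * (X - C x₁) + C y₁) ^ 2 =
      (X - C x₁) * (X - C x₂) * (X - C (l ^ 2 - a - x₁ - x₂)) := by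
  have hx' : x₁ - x₂ ≠ 0 := sub_ne_zero.2 hx
  unfold OnC at h1 h2
  have hα : b - 2 * l * (y₁ - l * x₁) = x₁ * x₂ + x₁ * (l ^ 2 - a - x₁ - x₂) +
      x₂ * (l ^ 2 - a - x₁ - x₂) := by
    have : (x₁ - x₂) * (b - 2 * l * (y₁ - l * x₁) - (x₁ * x₂ + x₁ * (l ^ 2 - a - x₁ - x₂) +
      x₂ * (l ^ 2 - a - x₁ - x₂))) = 0 := by
      linear_combination h2 - h1 + (y₂ - y₁ + l * (x₁ - x₂)) * hl
    rcases mul_eq_zero.1 this with h | h
    · exact absurd h hx'
    · linear_combination h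
  have hβ : c - (y₁ - l * x₁) ^ 2 = -(x₁ * x₂ * (l ^ 2 - a - x₁ - x₂)) := by
    linear_combination -h1 - x₁ * hα
  have hα' := congrArg (C : K → K[X]) hα
  have hβ' := congrArg (C : K → K[X]) hβ
  simp only [map_add, map_sub, map_mul, map_pow, map_neg, map_ofNat] at hα' hβ'
  unfold cub
  simp only [map_add, map_sub, map_mul, map_pow]
  linear_combination X * hα' + hβ'

theorem hom_thm (hKER : KERStmt) : HOMStmt := by
  intro K _ _ h2 a b c hsep x₁ y₁ h₁ x₂ y₂ h₂ u hy1 hy2 hdvd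
  have hC1 : OnC a b c x₁ y₁ := by
    have := (WeierstrassCurve.Affine.equation_iff x₁ y₁).1 h₁.1
    simp only [E] at this
    unfold OnC
    linear_combination this
  have hC2 : OnC a b c x₂ y₂ := by
    have := (WeierstrassCurve.Affine.equation_iff x₂ y₂).1 h₂.1
    simp only [E] at this
    unfold OnC
    linear_combination this
  by_cases hx : x₁ = x₂
  · rcases WeierstrassCurve.Affine.Point.X_eq_iff (h₁ := h₁) (h₂ := h₂) |>.1 hx with h | h
    · exact ⟨0, by rw [h, sub_self, add_zero]⟩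
    · refine ⟨WeierstrassCurve.Affine.Point.some x₁ y₁ h₁, ?_⟩
      rw [sub_eq_add_neg, ← h]
  · rw [sub_eq_add_neg, WeierstrassCurve.Affine.Point.neg_some,
      WeierstrassCurve.Affine.Point.add_of_X_ne hx]
    set l := (E a b c).toAffine.slope x₁ x₂ y₁ ((E a b c).toAffine.negY x₂ y₂) with hl
    have hl' : l * (x₁ - x₂) = y₁ + y₂ := by
      rw [hl, WeierstrassCurve.Affine.slope_of_X_ne hx,
        div_mul_cancel₀ _ (sub_ne_zero.2 hx)]
      simp [WeierstrassCurve.Affine.negY, E]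
    have hX : (E a b c).toAffine.addX x₁ x₂ l = l ^ 2 - a - x₁ - x₂ := by
      simp [WeierstrassCurve.Affine.addX, E]
    have hline := hom_line a b c x₁ y₁ x₂ y₂ l hC1 hC2 hx hl'
    refine hKER K h2 a b c hsep _ _ _
      ((C l * (X - C x₁) + C y₁) * (u * hh a b x₁ y₁ * hh a b x₂ y₂)) ?_
    rw [hX]
    -- computations modulo the cubic
    set φ := AdjoinRoot.mk (cub a b c) with hφ
    have h0 : φ (cub a b c) = 0 := AdjoinRoot.mk_self
    have hA := AdjoinRoot.mk_eq_mk.2 hdvd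
    rw [← hφ] at hA
    have e1 := congrArg φ (hom_hh a b c x₁ y₁ hC1 hy1)
    have e2 := congrArg φ (hom_hh a b c x₂ y₂ hC2 hy2)
    have e3 := congrArg φ hline
    rw [← AdjoinRoot.mk_eq_mk, ← hφ]
    simp only [map_mul, map_sub, map_pow, map_add, h0, map_one, mul_zero, sub_zero] at hA e1 e2 e3 ⊢
    set A1 := φ (C x₁) - φ X with hA1
    set A2 := φ (C x₂) - φ X with hA2
    set H1 := φ (hh a b x₁ y₁) with hH1
    set H2 := φ (hh a b x₂ y₂) with hH2
    have f1 : φ X - φ (C x₁) = -A1 := by rw [hA1]; ring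
    have f2 : φ X - φ (C x₂) = -A2 := by rw [hA2]; ring
    rw [f1, f2] at e3
    rw [f1]
    linear_combination (φ u ^ 2 * H1 ^ 2 * H2 ^ 2) * e3 +
      (A1 * A2 * (φ (C l) ^ 2 - φ (C a) - φ (C x₁) - φ (C x₂) - φ X) * H1 ^ 2 * H2 ^ 2) * hA -
      ((φ (C l) ^ 2 - φ (C a) - φ (C x₁) - φ (C x₂) - φ X) * (A1 * H1 + 1) *
        (A2 * H2) ^ 2) * e1 -
      ((φ (C l) ^ 2 - φ (C a) - φ (C x₁) - φ (C x₂) - φ X) * (A2 * H2 + 1)) * e2

end Pool.AVR
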